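import Pool.Agent.Helper22.AW.Defs
import Pool.Agent.Helper99.EX.B4

/-!
# AW (MP_fb29e9_nt, AlmostEveryOval v6), block S4: the set of violations of the law of the large values at the worst centre is a Borel set

The measure of the radii at which SOME centre sees a large value is lower semicontinuous in the oval, for one radius and one centre at
a time: the centre stays where it is while the oval moves.
-/

open MeasureTheory Real Set Filter Topology

set_option autoImplicit false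

namespace Pool.Agent.Helper99.AW

open Pool.Agent.Helper93.AO Pool.Agent.Helper93.EX Pool.Agent.Helper88.EX Pool.Agent.Helper22.AW
open Pool.Agent.Helper22.AE (rho)

section

variable {k : ℕ} {V : Type} [TopologicalSpace V] {val : V → ℝ → ℝ}

/-- the measure of the radii with a large value at some centre is lower semicontinuous at the ovals -/
theorem lsc_s99 (h : IsPer k val) (hk : 2 ≤ k) {σ : ℝ} (hσ : σ = 1 ∨ σ = -1) {H : V}
    (hH : ∀ t, 0 < val H t + deriv (deriv (val H)) t) (t A B : ℝ) {y : ℝ}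
    (hy : y < LS (fun R c => Es σ (val H) c R) t A B) :
    ∀ᶠ f : V in 𝓝 H, y < LS (fun R c => Es σ (val f) c R) t A B := by
  rcases lt_or_ge y 0 with hy0 | hy0
  · exact Filter.Eventually.of_forall fun z => lt_of_lt_of_le hy0 measureReal_nonneg
  have := fc99 h
  obtain ⟨W, hW⟩ := (𝓝 H).exists_antitone_basis
  set S : ℕ → Set ℝ := fun n => {R : ℝ | R ∈ Icc A B ∧ ∃ c : ℝ × ℝ, ∀ f ∈ W n, t * gR R < Es σ (val f) c R} with hS
  have hmono : Monotone S := by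
    rintro a b hab R ⟨h1, c, h2⟩
    exact ⟨h1, c, fun f hf => h2 f (hW.antitone hab hf)⟩
  have hsub : {R : ℝ | R ∈ Icc A B ∧ ∃ c : ℝ × ℝ, t * gR R < Es σ (val H) c R} ⊆ ⋃ n, S n := by
    rintro R ⟨h1, c, h2⟩
    have h3 := viol_near h hk hσ 0 t hH (c := c) (R := R) (by rw [zero_mul, zero_add]; exact h2)
    have h4 : Tendsto (fun f : V => (f, c)) (𝓝 H) (𝓝 (H, c)) := (Continuous.prodMk_left c).tendsto H
    obtain ⟨n, hn⟩ := hW.mem_iff.1 (h4.eventually h3)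
    refine mem_iUnion.2 ⟨n, h1, c, fun f hf => ?_⟩
    have h5 := (hn hf).2
    rw [zero_mul, zero_add] at h5
    exact h5
  have hfin : volume (Icc A B) ≠ ⊤ := by
    rw [Real.volume_Icc]
    exact ENNReal.ofReal_ne_top
  have h1 : ENNReal.ofReal y < volume {R : ℝ | R ∈ Icc A B ∧ ∃ c : ℝ × ℝ, t * gR R < Es σ (val H) c R} :=
    (ENNReal.ofReal_lt_iff_lt_toReal hy0 (measure_ne_top_of_subset (fun R hR => hR.1) hfin)).2 hy
  have h2 : ENNReal.ofReal y < ⨆ n, volume (S n) := by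
    rw [← hmono.measure_iUnion]
    exact lt_of_lt_of_le h1 (measure_mono hsub)
  obtain ⟨n, hn⟩ := lt_iSup_iff.1 h2
  filter_upwards [hW.mem n] with f hf
  have h3 : volume (S n) ≤ volume {R : ℝ | R ∈ Icc A B ∧ ∃ c : ℝ × ℝ, t * gR R < Es σ (val f) c R} := by
    refine measure_mono ?_
    rintro R ⟨hR1, c, hR2⟩
    exact ⟨hR1, c, hR2 f hf⟩
  have h4 := lt_of_lt_of_le hn h3
  unfold LS
  have h5 : volume {R : ℝ | R ∈ Icc A B ∧ ∃ c : ℝ × ℝ, t * gR R < Es σ (val f) c R} ≠ ⊤ :=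
    measure_ne_top_of_subset (fun R hR => hR.1) hfin
  rw [Measure.real]
  exact (ENNReal.ofReal_lt_iff_lt_toReal hy0 h5).1 h4

theorem LS_anti99 (F : ℝ → ℝ × ℝ → ℝ) {t t' A B : ℝ} (hA : 2 ≤ A) (ht : t' ≤ t) : LS F t A B ≤ LS F t' A B := by
  unfold LS
  refine measureReal_mono ?_ ?_
  · rintro R ⟨h1, c, h2⟩
    exact ⟨h1, c, lt_of_le_of_lt (mul_le_mul_of_nonneg_right ht (gR_pos (hA.trans h1.1)).le) h2⟩
  · refine measure_ne_top_of_subset (fun R hR => hR.1) ?_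
    rw [Real.volume_Icc]
    exact ENNReal.ofReal_ne_top

/-- block S4 -/
theorem meas_s [MeasurableSpace V] [BorelSpace V] (h : IsPer k val) (hk : 2 ≤ k) {σ : ℝ} (hσ : σ = 1 ∨ σ = -1) {κ : ℝ} (hκ : 0 < κ) :
    MeasurableSet {H : V | (∀ t, 0 < val H t + deriv (deriv (val H)) t) ∧ ∃ t : ℝ, 0 < t ∧ ∃ ε : ℝ, 0 < ε ∧
      ∀ p₀ : ℕ, ∃ p : ℕ, p₀ ≤ p ∧
        2 ^ ((1 - (t / (κ * aff (val H) ^ (3 / 4 : ℝ))) ^ 4 + ε) * p : ℝ) < LS (fun R c => Es σ (val H) c R) t (2 ^ p) (2 ^ (p + 1))} := by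
  let U : ℚ → ℕ → ℕ → Set V := fun q n m => {H | (∀ t, 0 < val H t + deriv (deriv (val H)) t) ∧ ∃ p : ℕ, m ≤ p ∧
    2 ^ ((1 - ((q : ℝ) / (κ * aff (val H) ^ (3 / 4 : ℝ))) ^ 4 + 1 / ((n : ℝ) + 1)) * p : ℝ) <
      LS (fun R c => Es σ (val H) c R) q (2 ^ p) (2 ^ (p + 1))}
  have hU : ∀ q n m, IsOpen (U q n m) := by
    intro q n m
    rw [isOpen_iff_mem_nhds]
    rintro H ⟨hH, p, hp, hv⟩
    obtain ⟨y, hy1, hy2⟩ := exists_between hv
    filter_upwards [pos88 h hk hH, lsc_s99 h hk hσ hH q (2 ^ p) (2 ^ (p + 1)) hy2, bd_near99 h hk hκ q (1 / ((n : ℝ) + 1)) p hH hy1]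
      with f hf hf1 hf2
    exact ⟨hf, p, hp, hf2.trans hf1⟩
  have hset : {H : V | (∀ t, 0 < val H t + deriv (deriv (val H)) t) ∧ ∃ t : ℝ, 0 < t ∧ ∃ ε : ℝ, 0 < ε ∧
      ∀ p₀ : ℕ, ∃ p : ℕ, p₀ ≤ p ∧
        2 ^ ((1 - (t / (κ * aff (val H) ^ (3 / 4 : ℝ))) ^ 4 + ε) * p : ℝ) < LS (fun R c => Es σ (val H) c R) t (2 ^ p) (2 ^ (p + 1))} =
      ⋃ q : {q : ℚ // 0 < q}, ⋃ n, ⋂ m, U q.1 n m := by
    ext H
    simp only [mem_iUnion, mem_iInter]
    constructor
    · rintro ⟨hH, t, ht, ε, hε, hR⟩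
      have hT : 0 < κ * aff (val H) ^ (3 / 4 : ℝ) := mul_pos hκ (rpow_pos_of_pos (aff_pos99 h hk hH) _)
      set T := κ * aff (val H) ^ (3 / 4 : ℝ) with hTdef
      obtain ⟨n, hn⟩ := exists_nat_one_div_lt (show 0 < ε / 2 by linarith)
      have hc : ContinuousAt (fun x : ℝ => (x / T) ^ 4) t := by fun_prop
      obtain ⟨δ, hδ, hball⟩ := Metric.eventually_nhds_iff.1 (hc.eventually (lt_mem_nhds (show (t / T) ^ 4 - ε / 2 < (t / T) ^ 4 by linarith)))
      obtain ⟨q, hq1, hq2⟩ := exists_rat_btwn (show max 0 (t - δ) < t from max_lt ht (by linarith))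
      have hq0 : (0 : ℝ) < q := lt_of_le_of_lt (le_max_left _ _) hq1
      have hqδ : t - δ < q := lt_of_le_of_lt (le_max_right _ _) hq1
      have hqT := hball (y := (q : ℝ)) (by rw [Real.dist_eq, abs_lt]; constructor <;> linarith)
      refine ⟨⟨q, by exact_mod_cast hq0⟩, n, fun m => ?_⟩
      obtain ⟨p, hp, hv⟩ := hR (max m 1)
      have hp1 : 1 ≤ p := (le_max_right _ _).trans hp
      have hp2 : (2 : ℝ) ≤ 2 ^ p := by
        calc (2 : ℝ) = 2 ^ 1 := (pow_one _).symm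
          _ ≤ 2 ^ p := pow_le_pow_right₀ (by norm_num) hp1
      refine ⟨hH, p, (le_max_left _ _).trans hp, ?_⟩
      refine lt_of_le_of_lt ?_ (lt_of_lt_of_le hv (LS_anti99 _ hp2 hq2.le))
      refine Real.rpow_le_rpow_of_exponent_le (by norm_num) (mul_le_mul_of_nonneg_right ?_ (Nat.cast_nonneg p))
      change 1 - ((q : ℝ) / T) ^ 4 + 1 / ((n : ℝ) + 1) ≤ _
      linarith
    · rintro ⟨q, n, hn⟩
      have hq : (0 : ℝ) < q.1 := by exact_mod_cast q.2
      refine ⟨(hn 0).1, q.1, hq, 1 / ((n : ℝ) + 1), by positivity, fun p₀ => ?_⟩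
      exact (hn p₀).2
  rw [hset]
  exact MeasurableSet.iUnion fun q => MeasurableSet.iUnion fun n => MeasurableSet.iInter fun m => (hU q.1 n m).measurableSet

end

end Pool.Agent.Helper99.AW
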